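import Pool.Agent.Lib.MP_a893c7_co.Main

open Finset

namespace Pool.Agent.Results.MP_a893c7_co.CriticalLayer

theorem result (ε : ℝ) (hε : 0 < ε) : ∃ n₀ : ℕ, ∀ n ≥ n₀, ∀ B : Finset (Finset (Fin n)), ∃ W ⊆ B,
    (∀ A ∈ W, |(A.card : ℝ) - (1 - 1 / √2) * n| ≤ ε * n) ∧
    (∀ T : Finset (Fin n), (Set.ncard {A | A ∈ W ∧
      ε * n < |((A ∩ T).card : ℝ) - (1 - 1 / √2) * T.card|} : ℝ) ≤ ε * B.card) ∧
    (Set.ncard {S | ∃ A ∈ B, ∃ A' ∈ B, (A ∉ W ∨ A' ∉ W) ∧ S = A ∪ A'} : ℝ) ≤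
      ((B.card : ℝ) - W.card) ^ 2 / 4 + ε * 2 ^ n ∧
    ((∀ S : Finset (Fin n), ∃ A ∈ B, ∃ A' ∈ B, S = A ∪ A') →
      (B.card : ℝ) ≤ (2 - ε) * √(2 ^ n) → 2 * B.card ≤ 3 * W.card) := by
  classical
  obtain ⟨n₀, h⟩ := Pool.Agent.Lib.MP_a893c7_co.main hε
  refine ⟨n₀, fun n hn B => ?_⟩
  obtain ⟨W, h0, h1, h2, h3, h4⟩ := h n hn B
  refine ⟨W, h0, h1, fun T => ?_, ?_, Pool.Agent.Lib.MP_a893c7_co.two_thirds hε h3 h4⟩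
  · convert h2 T
    rw [← Set.ncard_coe_finset (filter _ W), coe_filter]
  · refine le_trans (le_of_eq ?_) (h3.trans (by gcongr; linarith))
    rw [← Set.ncard_coe_finset]
    congr 2
    ext S
    simp only [Set.mem_ofPred_eq, coe_image, coe_filter, mem_product, Set.mem_image, Prod.exists]
    exact ⟨fun ⟨A, a, A', b, c, d⟩ => ⟨A, A', ⟨⟨a, b⟩, c⟩, d.symm⟩,
      fun ⟨A, A', ⟨⟨a, b⟩, c⟩, d⟩ => ⟨A, a, A', b, c, d.symm⟩⟩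

end Pool.Agent.Results.MP_a893c7_co.CriticalLayer
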