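import Pool.Agent.Lib.MP_a893c7_co.KC6

open Finset Pool.Agent.Lib.MP_a893c7_co.KB

namespace Pool.Agent.Results.MP_a893c7_co.KBaseCount

theorem result (k n : ℕ) (hk : 11 ≤ k) (hn : 100 * k ^ 2 ≤ n) :
    ∃ B : Finset (Finset (Fin n)),
      (∀ T : Finset (Fin n), ∃ f : Fin k → Finset (Fin n),
        (∀ i, f i ∈ B) ∧ T = univ.biUnion f) ∧
      B.card ^ k ≤ k.factorial * n * 2 ^ n ∧
      (n = 100 * k ^ 2 + 5 ∨ 101 * (k.factorial * n * 2 ^ (n % k)) ≤ 100 * (k + n % k) ^ k →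
        B.card + (k - 1) < ∑ i ∈ range k, 2 ^ ((n + i) / k)) := by
  obtain ⟨B, b1, b2⟩ := count hk hn
  obtain ⟨B', c1, c2⟩ := b1.fin
  have b3 := (Nat.pow_le_pow_left c2 k).trans b2
  refine ⟨B', c1, b3, fun h => ?_⟩
  rw [canon (by omega)]
  refine below hk hn b3 (h.elim (fun e => ?_) id)
  have r : n % k = 5 := by
    rw [e, show 100 * k ^ 2 + 5 = 5 + k * (100 * k) by ring, Nat.add_mul_mod_self_left]
    exact Nat.mod_eq_of_lt (by omega)
  rw [r, e]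
  exact five hk

end Pool.Agent.Results.MP_a893c7_co.KBaseCount
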