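import Pool.Agent.Lib.MP_a893c7_co.KB6

open Finset Filter Pool.Agent.Lib.MP_a893c7_co.KB

namespace Pool.Agent.Results.MP_a893c7_co.KBaseLarge

theorem canon {k : ℕ} (hk : 0 < k) (n : ℕ) :
    ∑ i ∈ range k, 2 ^ ((n + i) / k) = (k + n % k) * 2 ^ (n / k) := by
  have h := Nat.mod_lt n hk
  have e := Nat.div_add_mod n k
  obtain ⟨j, hj⟩ : ∃ j, k = j + n % k := ⟨k - n % k, by omega⟩
  have a (i : ℕ) (hi : i ∈ range j) : 2 ^ ((n + i) / k) = 2 ^ (n / k) := by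
    rw [mem_range] at hi
    congr 1
    exact Nat.div_eq_of_lt_le (by rw [mul_comm]; omega) (by rw [mul_comm, mul_add]; omega)
  have b (i : ℕ) (hi : i ∈ range (n % k)) : 2 ^ ((n + (j + i)) / k) = 2 ^ (n / k + 1) := by
    rw [mem_range] at hi
    congr 1
    exact Nat.div_eq_of_lt_le (by rw [mul_comm, mul_add]; omega)
      (by rw [mul_comm, mul_add, mul_add]; omega)
  conv_lhs => rw [show range k = range (j + n % k) from congrArg range hj]
  rw [sum_range_add, sum_congr rfl a, sum_congr rfl b]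
  simp only [sum_const, card_range, smul_eq_mul]
  generalize n % k = r at hj
  rw [hj]
  ring

theorem result (k : ℕ) (hk : 115 ≤ k) : ∃ n₀ : ℕ, ∀ n ≥ n₀, 51 ≤ n % k → n % k + 64 ≤ k →
    ∃ B : Finset (Finset (Fin n)),
      (∀ T : Finset (Fin n), ∃ f : Fin k → Finset (Fin n),
        (∀ i, f i ∈ B) ∧ T = univ.biUnion f) ∧
      (B.card : ℝ) ≤ ((∑ i ∈ range k, (2 : ℝ) ^ ((n + i) / k)) - (k - 1)) - 2 ^ (n / k) / 16 := by
  have hε : Real.exp (-((7203 / 5000 : ℝ) ^ (114 + 1) / 2 ^ 51)) < 1 / 2 ^ 1084 := by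
    have h1 : (752 : ℝ) ≤ (7203 / 5000 : ℝ) ^ (114 + 1) / 2 ^ 51 := by norm_num
    have h2 : (1 : ℝ) / 2 ^ 1084 = Real.exp (-((1084 : ℕ) * Real.log 2)) := by
      rw [Real.exp_neg, Real.exp_nat_mul, Real.exp_log two_pos, one_div]
    rw [h2, Real.exp_lt_exp]
    have := Real.log_two_lt_d9
    push_cast
    linarith
  obtain ⟨m₀, hm⟩ := eventually_atTop.1 ((upper 114 51 9 (δ := 1 / 100) (by norm_num)
    (by norm_num) hε).and ((tendsto_pow_atTop_atTop_of_one_lt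
      (one_lt_two (α := ℝ))).eventually_ge_atTop (50 * k)))
  refine ⟨k * m₀, fun n hn h1 h2 => ?_⟩
  obtain ⟨⟨B, b1, b2⟩, b3⟩ := hm (n / k) ((Nat.le_div_iff_mul_le (by omega)).2 (by
    rw [mul_comm]; exact hn))
  obtain ⟨i, hi⟩ : ∃ i, n % k = 51 + i := ⟨n % k - 51, by omega⟩
  obtain ⟨j, hj⟩ : ∃ j, k = 114 + 1 + i + j := ⟨k - 115 - i, by omega⟩
  obtain ⟨B₁, c1, c2⟩ := b1.ext_many (n / k + 1) i
  obtain ⟨B₂, d1, d2⟩ := c1.ext_many (n / k) j
  have e : 51 + (114 + 1) * (n / k) + i * (n / k + 1) + j * (n / k) = n := by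
    have e := Nat.div_add_mod n k
    generalize n / k = m at e ⊢
    rw [← e, hi, hj]
    ring
  rw [← hj, e] at d1
  obtain ⟨B₃, e1, e2⟩ := d1.fin
  refine ⟨B₃, e1, ?_⟩
  have s : (∑ i ∈ range k, (2 : ℝ) ^ ((n + i) / k)) = (k + (n % k : ℕ)) * 2 ^ (n / k) := by
    exact_mod_cast canon (by omega : 0 < k) n
  have f1 : (B₃.card : ℝ) ≤ B.card + i * 2 ^ (n / k + 1) + j * 2 ^ (n / k) := by
    exact_mod_cast e2.trans (d2.trans (by omega))
  have f2 : (k : ℝ) = 115 + i + j := by exact_mod_cast hj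
  have f3 : (1 : ℝ) / 2 ^ 1084 * 2 ^ (51 + 114 * 9) = 1 / 128 := by
    rw [show 1084 = 7 + (51 + 114 * 9) by norm_num, pow_add (2 : ℝ) 7]
    field_simp
    norm_num
  rw [f3] at b2
  rw [s, hi, pow_succ] at *
  push_cast at b2 ⊢
  generalize (2 : ℝ) ^ (n / k) = X at *
  have f4 : ((k : ℝ) + (51 + i)) * X = 166 * X + i * (X * 2) + j * X := by rw [f2]; ring
  rw [f4]
  linarith

end Pool.Agent.Results.MP_a893c7_co.KBaseLarge
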